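import Pool.Agent.H23.CM4.Targets
import Pool.Agent.H25.HK.Final

/-!
# Board cm4_modules, row D_ZKB: the sum of the inverse squares of the norms of the ideals
-/

set_option autoImplicit false

open NumberField MeasureTheory Set Filter Complex
open scoped nonZeroDivisors Real

namespace Pool.Agent.H42.CM4

open Pool.Agent.H23.CM4

theorem zkb_term (m : ℕ) (c : ℂ) (h0 : m = 0 → c = 0) (hc : ‖c‖ ≤ 1) :
    ‖c * (m : ℂ) ^ (-(2 : ℂ))‖ ≤ 1 / (m : ℝ) ^ 2 := by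
  rcases Nat.eq_zero_or_pos m with h | h
  · rw [h0 h, zero_mul, norm_zero]
    positivity
  · rw [norm_mul, Complex.norm_natCast_cpow_of_pos h]
    have e : ((m : ℝ)) ^ ((-(2 : ℂ)).re) = 1 / (m : ℝ) ^ 2 := by
      have e1 : (-(2 : ℂ)).re = -((2 : ℕ) : ℝ) := by simp
      rw [e1, Real.rpow_neg (Nat.cast_nonneg m), Real.rpow_natCast, one_div]
    rw [e]
    have h2 : 0 ≤ 1 / (m : ℝ) ^ 2 := by positivity
    nlinarith [norm_nonneg c]

theorem pf_ZKB : T_ZKB := by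
  intro m
  set Z : ℝ := ∑' n : ℕ, 1 / (n : ℝ) ^ 2 with hZ
  have hZs : Summable fun n : ℕ => 1 / (n : ℝ) ^ 2 :=
    Real.summable_one_div_nat_pow.2 one_lt_two
  have hZ0 : 0 ≤ Z := tsum_nonneg fun n => by positivity
  refine ⟨Z ^ m + 1, by positivity, ?_⟩
  intro K _ _ hK
  obtain ⟨h, h0, -, -, h3, h4, -⟩ := Pool.Agent.H25.HK.T_EP_proved K
  have hzeta : ‖dedekindZeta K 2‖ ≤ Z ^ m := by
    rw [h4 2 (by simp), norm_prod, ← hK]
    calc ∏ j : Fin (Module.finrank ℚ K), ‖∑' n : ℕ, h j n * (n : ℂ) ^ (-(2 : ℂ))‖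
        ≤ ∏ _j : Fin (Module.finrank ℚ K), Z := by
          refine Finset.prod_le_prod (fun j _ => norm_nonneg _) fun j _ => ?_
          refine tsum_of_norm_bounded hZs.hasSum fun n => ?_
          refine zkb_term n (h j n) (fun hn => ?_) (h3 j n)
          rw [hn, h0]
      _ = Z ^ Module.finrank ℚ K := by
          rw [Finset.prod_const, Finset.card_univ, Fintype.card_fin]
  have hds := (Pool.Agent.H63.HK.ds K 2 (by simp)).2
  have hS : ((∑' J : (Ideal (𝓞 K))⁰, nJ J ^ (-(2 : ℝ)) : ℝ) : ℂ) = dedekindZeta K 2 := by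
    rw [hds, Complex.ofReal_tsum]
    let e : (Ideal (𝓞 K))⁰ ≃ {I : Ideal (𝓞 K) // I ≠ ⊥} :=
      Equiv.subtypeEquivRight fun I => mem_nonZeroDivisors_iff_ne_zero
    rw [← e.tsum_eq (fun I : {I : Ideal (𝓞 K) // I ≠ ⊥} =>
      (Ideal.absNorm I.1 : ℂ) ^ (-(2 : ℂ)))]
    refine tsum_congr fun J => ?_
    change (((Ideal.absNorm (J : Ideal (𝓞 K)) : ℝ) ^ (-(2 : ℝ)) : ℝ) : ℂ) =
      (Ideal.absNorm (J : Ideal (𝓞 K)) : ℂ) ^ (-(2 : ℂ))
    rw [Complex.ofReal_cpow (Nat.cast_nonneg _)]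
    push_cast
    rfl
  have hS2 : |∑' J : (Ideal (𝓞 K))⁰, nJ J ^ (-(2 : ℝ))| ≤ Z ^ m := by
    rw [← Real.norm_eq_abs, ← Complex.norm_real, hS]
    exact hzeta
  have := le_abs_self (∑' J : (Ideal (𝓞 K))⁰, nJ J ^ (-(2 : ℝ)))
  linarith

end Pool.Agent.H42.CM4
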