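import Pool.Agent.H95.CM.Targets
import Pool.Agent.H29.THC.DFV

/-!
# Board cm4_modules, row C_NRI: the number of the ideals of a given norm
-/

set_option autoImplicit false

open MeasureTheory Set Filter NumberField
open scoped Real nonZeroDivisors

namespace Pool.Agent.H42.CM4

open Pool.Agent.H95.CM

theorem pf_NRI : T_NRI := by
  intro n ε hε
  rcases Nat.eq_zero_or_pos n with h0 | hn
  · refine ⟨1, one_pos, ?_⟩
    intro K _ _ hK
    exact absurd (hK.trans h0) Module.finrank_pos.ne'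
  have hn0 : (0 : ℝ) < n := by exact_mod_cast hn
  obtain ⟨C, hC⟩ := Pool.Agent.H29.THC.pf_DV n (ε / n) (by positivity)
  refine ⟨max C 1, lt_of_lt_of_le one_pos (le_max_right _ _), ?_⟩
  intro K _ _ hK m hm
  have hm0 : (m : 𝓞 K) ≠ 0 := by
    have : m ≠ 0 := by omega
    exact_mod_cast this
  have hk : Ideal.span {(m : 𝓞 K)} ≠ ⊥ := by
    rw [Ne, Ideal.span_singleton_eq_bot]
    exact hm0
  have h2 : {J : Ideal (𝓞 K) | Ideal.absNorm J = m}.ncard ≤
      (Pool.Agent.H29.TC.dvs K (Ideal.span {(m : 𝓞 K)})).card := by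
    rw [← Set.ncard_coe_finset]
    refine Set.ncard_le_ncard ?_ (Finset.finite_toSet _)
    intro I hI
    rw [Finset.mem_coe, Pool.Agent.H29.THC.pf_DF K _ hk, Ideal.span_singleton_le_iff_mem]
    have h4 := Ideal.absNorm_mem I
    have h5 : Ideal.absNorm I = m := hI
    rwa [h5] at h4
  have h3 := hC K hK _ hk
  have hm1 : (0 : ℝ) ≤ (m : ℝ) := Nat.cast_nonneg m
  have h4 : Pool.Agent.H23.LB.Nf K (Ideal.span {(m : 𝓞 K)}) = (m : ℝ) ^ n := by
    unfold Pool.Agent.H23.LB.Nf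
    rw [Ideal.absNorm_span_natCast, RingOfIntegers.rank, hK]
    push_cast
    rfl
  have h5 : ((m : ℝ) ^ n) ^ (ε / n) = (m : ℝ) ^ ε := by
    rw [← Real.rpow_natCast, ← Real.rpow_mul hm1]
    congr 1
    field_simp
  rw [h4, h5] at h3
  calc ({J : Ideal (𝓞 K) | Ideal.absNorm J = m}.ncard : ℝ)
      ≤ ((Pool.Agent.H29.TC.dvs K (Ideal.span {(m : 𝓞 K)})).card : ℝ) := by exact_mod_cast h2
    _ ≤ C * (m : ℝ) ^ ε := h3
    _ ≤ max C 1 * (m : ℝ) ^ ε := by
        have := Real.rpow_nonneg hm1 ε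
        have h6 := le_max_left C 1
        gcongr

end Pool.Agent.H42.CM4
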