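import Pool.Agent.H95.CM.Targets

/-!
# Board cm4_modules, row C_QNV: the metric of a form
-/

set_option autoImplicit false

open MeasureTheory Set Filter NumberField
open scoped Real nonZeroDivisors

namespace Pool.Agent.H42.CM4

open Pool.Agent.H65.CM4
open Pool.Agent.H95.CM
open Pool.Agent.H31.CN (IsLf)
open Pool.Agent.H61.FM (CC pv)

theorem qnv_aux (a b c D x y : ℝ) (ha : 0 < a) (hD : 0 < D) (h : D = 4 * (a * c) - b ^ 2) :
    ((x + y * (b / (2 * a))) ^ 2 + (y * (Real.sqrt D / (2 * a))) ^ 2) /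
      (2 * (Real.sqrt D / (2 * a))) = (a * x ^ 2 + b * (x * y) + c * y ^ 2) / Real.sqrt D := by
  have hs : 0 < Real.sqrt D := Real.sqrt_pos.2 hD
  have hs2 : Real.sqrt D ^ 2 = D := Real.sq_sqrt hD.le
  have e : (y * (Real.sqrt D / (2 * a))) ^ 2 = y ^ 2 * D / (2 * a) ^ 2 := by
    rw [mul_pow, div_pow, hs2]
    ring
  rw [e, h]
  rw [h] at hs
  field_simp
  ring

theorem pf_QNV : T_QNV := by
  intro k _ _ _ Q u hQ
  have hval : ∀ v : Pl k, rv v ((val Q u : 𝓞 k) : k) = rv v (Q.1 : k) * rv v (u.1 : k) ^ 2 +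
      rv v (Q.2.1 : k) * (rv v (u.1 : k) * rv v (u.2 : k)) +
      rv v (Q.2.2 : k) * rv v (u.2 : k) ^ 2 := by
    intro v
    simp only [val, map_add, map_mul, map_pow]
  have hdsc : ∀ v : Pl k, rv v ((dsc Q : 𝓞 k) : k) =
      4 * (rv v (Q.1 : k) * rv v (Q.2.2 : k)) - rv v (Q.2.1 : k) ^ 2 := by
    intro v
    simp only [dsc, map_sub, map_mul, map_pow, map_ofNat]
  refine ⟨fun v => ?_, ?_, fun v hu => ?_⟩
  · have h1 := (hQ v).1
    have h2 := Real.sqrt_pos.2 (hQ v).2
    unfold zy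
    positivity
  · unfold qn
    rw [Complex.ofReal_prod]
    refine Finset.prod_congr rfl fun v _ => ?_
    have h := qnv_aux (rv v (Q.1 : k)) (rv v (Q.2.1 : k)) (rv v (Q.2.2 : k))
      (rv v ((dsc Q : 𝓞 k) : k)) (rv v (u.1 : k)) (rv v (u.2 : k)) (hQ v).1 (hQ v).2 (hdsc v)
    rw [hval v, ← h]
    unfold qc zx zy
    push_cast
    rfl
  · have ha := (hQ v).1
    have hD := (hQ v).2
    have h4 : 4 * rv v (Q.1 : k) * rv v ((val Q u : 𝓞 k) : k) =
        (2 * rv v (Q.1 : k) * rv v (u.1 : k) + rv v (Q.2.1 : k) * rv v (u.2 : k)) ^ 2 +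
        rv v ((dsc Q : 𝓞 k) : k) * rv v (u.2 : k) ^ 2 := by
      rw [hval, hdsc]
      ring
    have hpos : 0 < 4 * rv v (Q.1 : k) * rv v ((val Q u : 𝓞 k) : k) := by
      rw [h4]
      by_cases h2 : u.2 = 0
      · have h1 : u.1 ≠ 0 := by
          intro h1
          exact hu (Prod.ext h1 h2)
        have h3 : rv v (u.1 : k) ≠ 0 := by
          rw [map_ne_zero]
          exact_mod_cast h1
        have h5 : rv v (u.2 : k) = 0 := by
          rw [h2]
          simp
        rw [h5, mul_zero, add_zero, zero_pow two_ne_zero, mul_zero, add_zero]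
        positivity
      · have h3 : rv v (u.2 : k) ≠ 0 := by
          rw [map_ne_zero]
          exact_mod_cast h2
        positivity
    have h6 : 0 < 4 * rv v (Q.1 : k) := by positivity
    exact (pos_iff_pos_of_mul_pos hpos).1 h6

end Pool.Agent.H42.CM4
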