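import Pool.Agent.H95.CM.Targets

/-!
# Board cm4_modules, row C_UNI: the index of the units
-/

set_option autoImplicit false

open MeasureTheory Set Filter NumberField
open scoped Real nonZeroDivisors

namespace Pool.Agent.H42.CM4

open Pool.Agent.H65.CM4
open Pool.Agent.H95.CM
open Pool.Agent.H31.CN (IsLf)
open Pool.Agent.H61.FM (CC pv)

theorem pf_UNI : T_UNI := by
  intro k K _ _ _ _ _ _ _ _
  have : IsCMField K := IsCMField.ofCMExtension k K
  have hfin : (IsCMField.realUnits K).FiniteIndex := by
    refine ⟨?_⟩
    rw [← IsCMField.unitsMulComplexConjInv_ker K, Subgroup.index_ker]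
    exact Nat.card_pos.ne'
  have hle : IsCMField.realUnits K ≤
      (Units.map (algebraMap (𝓞 k) (𝓞 K)).toMonoidHom).range := by
    intro u hu
    obtain ⟨v, hv⟩ := (IsCMField.mem_realUnits_iff K u).1 hu
    let e := RingOfIntegers.mapRingEquiv (CMExtension.equivMaximalRealSubfield k K).symm
    refine ⟨Units.map (e : 𝓞 (maximalRealSubfield K) →* 𝓞 k) v, ?_⟩
    apply Units.ext
    rw [← hv]
    apply RingOfIntegers.ext
    exact CMExtension.algebraMap_equivMaximalRealSubfield_symm_apply k K
      ((v : 𝓞 (maximalRealSubfield K)) : maximalRealSubfield K)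
  have h := Subgroup.finiteIndex_of_le hle
  exact Nat.pos_of_ne_zero h.index_ne_zero

end Pool.Agent.H42.CM4
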